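import Mathlib
import Pool.Agent.H82.Fold

set_option autoImplicit false

namespace Pool.Agent.Results.MP_188e7a_gt.CondensationCounter

open Pool.Agent.H82.Fold Pool.Agent.H82.FS

theorem result : ∃ (X Y : Type) (_ : TopologicalSpace X) (_ : TopologicalSpace Y),
    T35Space X ∧ T35Space Y ∧ SigmaCompactSpace X ∧ ¬ SigmaCompactSpace Y ∧
    (∃ φ : {f : X → ℝ // Continuous f} → {g : Y → ℝ // Continuous g},
      Continuous φ ∧ Function.Bijective φ) ∧
    (∃ ψ : {g : Y → ℝ // Continuous g} → {f : X → ℝ // Continuous f},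
      Continuous ψ ∧ Function.Bijective ψ) := by
  have := t35 G_le
  have h1 : T35Space (Y0 ⊕ ℕ × B) := t35_sum
  have : Countable Z := inferInstanceAs (Countable (Option (ℕ × ℕ)))
  have : SigmaCompactSpace Z := .of_countable (Set.range fun z => {z}) (Set.countable_range _)
    (by rintro _ ⟨z, rfl⟩; exact isCompact_singleton)
    (Set.eq_univ_of_forall fun z => ⟨{z}, ⟨z, rfl⟩, rfl⟩)
  refine ⟨Z ⊕ ℕ × B, Z ⊕ (Y0 ⊕ ℕ × B), inferInstance, inferInstance, t35_sum, t35_sum,
    inferInstance, fun _ => not_sigma ?_, Cond.refl.sum (Cond.hotel.trans (cond_B.sum .refl)),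
    (Cond.of_homeo (Homeomorph.sumAssoc _ _ _)).trans (core.sum .refl)⟩
  exact ((Topology.IsClosedEmbedding.inr (X := Z)).comp
    (Topology.IsClosedEmbedding.inl (Y := ℕ × B))).sigmaCompactSpace

end Pool.Agent.Results.MP_188e7a_gt.CondensationCounter
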